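import Pool.Agent.Helper64.LF.Thm

set_option autoImplicit false

/-!
# Conjecture F: constant terms `A` in every residue class for which the first prime value comes late

Conjecture F is about `n → ∞` for fixed `A`; the question treated here is how large `n` has to be in terms of `A`. Let
`R(X) = log X (log₂ X)⁴ (log₄ X)² / (log₃ X)⁴` (iterated logarithms), let `α ≥ 1`, `β ≥ 0` and let `a (mod q)` be any
residue class. There is `c > 0` such that for all large `X` EVERY interval `(M, M + X]`, `M ≥ X`, contains an integer
`A ≡ a (mod q)` such that `α x² + β x + A` is not prime for any `0 ≤ x ≤ c R(X)`, although no prime that does not divide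
`q` divides all the values (so for `q = 2`, `a = 1`, `α = β = 1` it is a polynomial `x² + x + A` of the question). So
`P_A(n) = 0` for `n` as large as a constant times `R(A)`, while `L_A(n)` is then about `(log₂ A)⁴`.

Proof: for the primes `p ≤ (log X) / 10` which do not divide `6 α q` the residue class of `A` modulo `p` is chosen such that
`T² (β² - 4 α A) ≡ 4` (for the smaller ones) or `≡ 1` (for the larger ones) modulo `p`, `T = 6 α q`; then the arguments
`x` which survive the sieve by these primes are those for which `m = T (2 α x + β)` is `≢ ± 2`, `≢ ± 1` modulo `p`, and there are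
few of them by the theorem on survivors of the starting library (project PS, helper378 and others). The remaining ones are covered by
larger primes with the covering sieve of the starting library (helper256), inside any residue class of small modulus. The starting
library has the case `x² + A` without residue classes (`MP_391708_nt.LateFirstPrime`), and a shorter range
(`(log₂ X)³ / (log₃ X)³` instead of the fourth powers) for `α x² + A`.
-/

namespace Pool.Agent.Results.MP_8be758_nt.LateFirstPrime

/-- `P_A(n)` for `α = β = 1`: the number of the `x ∈ {0, 1, …, n}` for which `α x ^ 2 + β x + A` is prime. -/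
def P (α β A n : ℕ) : ℕ := ((Finset.range (n + 1)).filter (fun x => (α * x ^ 2 + β * x + A).Prime)).card

/-- `R(X) = log X (log₂ X)⁴ (log₄ X)² / (log₃ X)⁴`. -/
noncomputable def R (X : ℝ) : ℝ :=
  Real.log X * (Real.log (Real.log X)) ^ 4 * (Real.log (Real.log (Real.log (Real.log X)))) ^ 2 /
    (Real.log (Real.log (Real.log X))) ^ 4

/-- **Late first primes.** For all `α ≥ 1`, `β ≥ 0`, `q ≥ 1` and `a` there is `c > 0` such that for all large `X` every
interval `(M, M + X]` with `M ≥ X` contains an `A ≡ a (mod q)` such that no prime outside `q` divides all the values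
`α x ^ 2 + β x + A` and none of these values with `0 ≤ x ≤ c R(X)` is prime. -/
theorem result (α β q a : ℕ) (hα : 1 ≤ α) (hq : 1 ≤ q) :
    ∃ c : ℝ, 0 < c ∧ ∃ X₀ : ℝ, ∀ X : ℝ, X₀ ≤ X → ∀ M : ℝ, X ≤ M →
      ∃ A : ℕ, M < A ∧ (A : ℝ) ≤ M + X ∧ A ≡ a [MOD q] ∧
        (∀ p : ℕ, p.Prime → ¬ p ∣ q → ∃ x : ℕ, ¬ p ∣ α * x ^ 2 + β * x + A) ∧
        ∀ n : ℕ, (n : ℝ) ≤ c * R X → P α β A n = 0 := by
  obtain ⟨c, hc, X₀, h⟩ := Pool.Agent.Helper64.LF.late α β q hα hq (a : ℤ)
  refine ⟨c, hc, X₀, fun X hX M hM => ?_⟩
  obtain ⟨A, h1, h2, h3, h4, h5⟩ := h X hX M hM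
  refine ⟨A, h1, h2, ?_, h4, fun n hn => ?_⟩
  · exact ((Nat.modEq_iff_dvd).2 h3).symm
  · rw [P, Finset.card_eq_zero, Finset.filter_eq_empty_iff]
    intro x hx
    rw [Finset.mem_range] at hx
    apply h5 x
    refine le_trans ?_ hn
    exact_mod_cast (by omega : x ≤ n)

end Pool.Agent.Results.MP_8be758_nt.LateFirstPrime
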