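import Pool.Agent.Helper64.EQ.E

set_option autoImplicit false
set_option maxHeartbeats 4000000

/-!
# Prime values of `x² + x + A` weighted with a regular function, for almost all odd `A`

Let `f` be a bounded function on the primes (for example the indicator function of a set of primes) which has a mean value
`δ(b)` over the primes `p ≡ b (mod W)`, for every reduced residue class `b` modulo ONE number `W`, a multiple of a number
`W₀(ε)`; nothing else is assumed about `f`. Then for all but `ε X` of the odd numbers `3 ≤ A ≤ X` the sum of `f(x² + x + A)`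
over the primes `x² + x + A`, `0 ≤ x ≤ n`, is what Conjecture F predicts for all `n ≤ √X`, with an error of at most
`ε √X / log X`: it is `C(Δ) L_A(n)` times the average of `δ(r² + r + A)` over the `r` modulo `W` for which `r² + r + A` is coprime to
`W`. For `f = 1` this is the theorem of the starting library for almost all odd `A` (`MP_8be758_nt.AlmostAllOddA`). Sets of primes to which it
applies: the primes with a prescribed Frobenius class in a number field (with the mean values of Chebotarev's theorem), the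
primes of any set which has a density inside every residue class.

The proof follows the one of the starting library for the polynomials `n² + a` and weights whose mean value is the same in all the
residue classes of all the moduli (project W5h22.PV, `MP_391708_nt`): the difference of the weight and its shifts by multiples of
`W₀` is controlled in the mean square over `A` by the restriction theorem for the primes and Weyl sums. The main term in one
residue class `x ≡ r (mod W)` comes from the theorem of the starting library (project R460.SC) for the polynomials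
`a m² + b m + c`.
-/

namespace Pool.Agent.Results.MP_8be758_nt.RegularWeights

open Finset Filter Topology

/-- `L_A(n) = 2 ∫_0^n dx / log (x ^ 2 + x + A)`. -/
noncomputable def L (A n : ℕ) : ℝ := 2 * ∫ x in (0 : ℝ)..n, 1 / Real.log (x ^ 2 + x + A)

/-- The product of the factors `1 - (Δ/p) / (p - 1)`, `Δ = 1 - 4 A`, over the odd primes `p ≤ z`. -/
noncomputable def C (A z : ℕ) : ℝ :=
  ∏ p ∈ (Icc 3 z).filter Nat.Prime, (1 - (jacobiSym (1 - 4 * (A : ℤ)) p : ℝ) / ((p : ℝ) - 1))

/-- The sum of `f (x ^ 2 + x + A)` over the `x ∈ {0, 1, …, n}` for which `x ^ 2 + x + A` is prime. -/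
noncomputable def S (f : ℕ → ℝ) (A n : ℕ) : ℝ :=
  ∑ x ∈ (range (n + 1)).filter (fun x : ℕ => (x ^ 2 + x + A).Prime), f (x ^ 2 + x + A)

/-- The mean value of `f` over the primes `p ≤ t` with `p ≡ b (mod q)`. -/
noncomputable def mean (f : ℕ → ℝ) (q b t : ℕ) : ℝ :=
  (∑ p ∈ (Icc 1 t).filter (fun p => p.Prime ∧ p ≡ b [MOD q]), f p) /
    ((Icc 1 t).filter (fun p => p.Prime ∧ p ≡ b [MOD q])).card

/-- The average of `δ (r ^ 2 + r + A)` over the `r` modulo `W` for which `r ^ 2 + r + A` is coprime to `W`. -/
noncomputable def avg (δ : ℕ → ℝ) (W A : ℕ) : ℝ :=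
  (∑ r ∈ (range W).filter (fun r => Nat.Coprime (r ^ 2 + r + A) W), δ (r ^ 2 + r + A)) /
    ((range W).filter (fun r => Nat.Coprime (r ^ 2 + r + A) W)).card

/-- **Conjecture F with regular weights for almost all odd `A`.** For every `ε > 0` there is `W₀ ≥ 1` such that for every
multiple `W ≥ 1` of `W₀` and every `f` with `|f(p)| ≤ 1` on the primes which has a mean value `δ(b)` over the primes
`p ≡ b (mod W)` for every `b` coprime to `W`: for all large `X` and all but at most `ε X` of the odd integers `3 ≤ A ≤ X` the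
product `C(Δ)`, `Δ = 1 - 4 A`, converges to a number `K > 0` and for all `n ≤ √X` the sum of `f(x² + x + A)` over the primes
`x² + x + A`, `0 ≤ x ≤ n`, differs by at most `ε √X / log X` from `K L_A(n)` times the average of `δ(r² + r + A)` over the
`r` modulo `W` with `r² + r + A` coprime to `W`. -/
theorem result (ε : ℝ) (hε : 0 < ε) :
    ∃ W₀ : ℕ, 1 ≤ W₀ ∧ ∀ W : ℕ, 1 ≤ W → W₀ ∣ W → ∀ f δ : ℕ → ℝ, (∀ p : ℕ, p.Prime → |f p| ≤ 1) →
      (∀ b : ℕ, Nat.Coprime b W → Tendsto (fun t : ℕ => mean f W b t) atTop (𝓝 (δ b))) →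
    ∃ X₀ : ℕ, ∀ X : ℕ, X₀ ≤ X → ∃ Bad : Finset ℕ, (Bad.card : ℝ) ≤ ε * X ∧
      ∀ A : ℕ, 3 ≤ A → A ≤ X → Odd A → A ∉ Bad →
        ∃ K : ℝ, 0 < K ∧ Tendsto (fun z : ℕ => C A z) atTop (𝓝 K) ∧
          ∀ n : ℕ, n ^ 2 ≤ X → |S f A n - K * avg δ W A * L A n| ≤ ε * (Real.sqrt X / Real.log X) := by
  obtain ⟨W₀, hW₀, hmain⟩ := Pool.Agent.Helper64.EQ.main (ε / 2) (by positivity)
  refine ⟨W₀, hW₀, fun W hW hWd f δ hf hδ => ?_⟩
  have h := hmain W hW hWd f δ hf hδ
  have ev : ∀ᶠ N : ℕ in atTop, 1 ≤ ε / 2 * (Real.sqrt N / Real.log N) := by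
    have k1 := (isLittleO_log_rpow_atTop (show (0 : ℝ) < 1 / 2 by norm_num)).bound (show 0 < ε / 2 by positivity)
    filter_upwards [tendsto_natCast_atTop_atTop (R := ℝ) |>.eventually k1, eventually_ge_atTop 3] with N k1 hN
    rw [Real.norm_of_nonneg (Real.log_natCast_nonneg N), Real.norm_of_nonneg (by positivity), ← Real.sqrt_eq_rpow] at k1
    have hN3 : (3 : ℝ) ≤ N := by exact_mod_cast hN
    have hl : 0 < Real.log N := Real.log_pos (by linarith)
    rw [← mul_div_assoc, le_div_iff₀ hl]
    linarith
  obtain ⟨X₀, hX₀⟩ := eventually_atTop.1 (h.and ev)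
  refine ⟨X₀, fun X hX => ?_⟩
  obtain ⟨⟨Bad, hBad, hgood⟩, hone⟩ := hX₀ X hX
  have hX0 : (0 : ℝ) ≤ X := Nat.cast_nonneg _
  refine ⟨Bad, by nlinarith, fun A hA3 hAX hodd hAB => ?_⟩
  obtain ⟨K, hK0, hK, hall⟩ := hgood A hA3 hAX hodd hAB
  refine ⟨K, hK0, hK, fun n hn => ?_⟩
  have h1 := hall n hn
  have e : S f A n = Pool.Agent.Helper64.EQ.R f A n + (if A.Prime then f A else 0) := by
    unfold S Pool.Agent.Helper64.EQ.R
    rw [sum_filter, range_eq_Ico, sum_eq_sum_Ico_succ_bot (by omega : 0 < n + 1), add_comm]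
    have e2 : Ico (0 + 1) (n + 1) = Icc 1 n := by
      ext x
      simp only [mem_Ico, mem_Icc]
      omega
    rw [e2]
    congr 1
    simp
  have e3 : S f A n - K * avg δ W A * L A n =
      (Pool.Agent.Helper64.EQ.R f A n - K * Pool.Agent.Helper64.EQ.avg δ W A * Pool.Agent.Helper64.CF.L A n) +
        (if A.Prime then f A else 0) := by
    rw [e]
    have h2 : avg δ W A = Pool.Agent.Helper64.EQ.avg δ W A := rfl
    have h3 : L A n = Pool.Agent.Helper64.CF.L A n := rfl
    rw [h2, h3]
    ring
  rw [e3]
  refine (abs_add_le _ _).trans ?_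
  have h4 : |(if A.Prime then f A else 0)| ≤ 1 := by
    split_ifs with hp
    · exact hf A hp
    · rw [abs_zero]
      norm_num
  have h5 : ε * (Real.sqrt X / Real.log X) = ε / 2 * (Real.sqrt X / Real.log X) + ε / 2 * (Real.sqrt X / Real.log X) := by
    ring
  rw [h5]
  linarith

end Pool.Agent.Results.MP_8be758_nt.RegularWeights
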