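import Pool.Agent.Helper64.AY.Gal
import Pool.Agent.Helper64.AY.Wey
import Pool.Agent.Helper64.AY.Exp
import Pool.Agent.Helper64.AY.Sec
import Pool.Agent.Helper64.AY.Net
import Pool.Agent.Helper64.AY.Fin
import Pool.Agent.Helper64.AY.Ext

/-!
# Conjecture F for `x² + x + A` in short ranges, for almost all odd `A`

For all `ε, U` and all but at most `X / (log X)^U` of the odd `A ≤ X`: uniformly for
`X^(1/6+ε) ≤ n ≤ X^(1-ε)` the number of prime values of `x² + x + A`, `0 ≤ x ≤ n`, is
`C(Δ) (L_A(n) + O*(n / (log X)^U))`.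

Method: the second moment over `A` of the deviation is an integral of the exponential sum of the primes
(minus their sieve model) against a quadratic Weyl sum. The Weyl sum is small outside short arcs of length
`(log X)^C / n²` around the fractions with denominators `≤ (log X)^C`, and on these arcs Gallagher's
inequality reduces the moment to the primes in the residue classes modulo `q ≤ (log X)^C` in almost all
intervals of length `n² / (log X)^C ≥ X^(1/3+ε)`, which are regularly distributed (library, helper24's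
project UT). The range `n ≥ X^(1/2)` is the library's `AlmostAllOddA`.
-/

set_option autoImplicit false

namespace Pool.Agent.Results.MP_8be758_nt.ShortRanges

open Finset Filter

/-- `P_A(n)`: the number of `0 ≤ t ≤ n` with `t² + t + A` prime -/
noncomputable def P (A n : ℕ) : ℕ :=
  ((range (n + 1)).filter (fun t : ℕ => (t ^ 2 + t + A).Prime)).card

/-- `L_A(n)`: twice the integral of `1 / log (t² + t + A)` over `[0, n]` -/
noncomputable def L (A n : ℕ) : ℝ :=
  2 * ∫ t in (0 : ℝ)..n, 1 / Real.log (t ^ 2 + t + A)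

/-- `∏ (1 - (Δ/p)/(p-1))` over the odd primes `p < N`, where `Δ = 1 - 4A` -/
noncomputable def C (A N : ℕ) : ℝ :=
  ∏ p ∈ (range N).filter (fun p : ℕ => Nat.Prime p ∧ 2 < p),
    (1 - ((jacobiSym (1 - 4 * (A : ℤ)) p : ℤ) : ℝ) / ((p : ℝ) - 1))

/-- **Conjecture F for `x² + x + A` in short ranges, for almost all odd `A`.** Let `θ > 1/6`, `ε > 0` and `U`
be given. For all large `X` there is a set `Bad` of at most `X / (log X)^U` integers such that for every odd
`A` with `3 ≤ A ≤ X` which is not in `Bad`: the product `C(Δ)`, `Δ = 1 - 4A`, converges to some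
`K ≥ 1 / (8 log X)`, and for all `n` with `X^θ ≤ n ≤ X^(1-ε)`
`|P_A(n) - K L_A(n)| ≤ K n / (log X)^U`. -/
theorem result (θ ε : ℝ) (hθ : 1 / 6 < θ) (hε : 0 < ε) (U : ℕ) : ∃ X0 : ℕ, ∀ X : ℕ, X0 ≤ X →
    ∃ Bad : Finset ℕ, (Bad.card : ℝ) ≤ X / (Real.log X) ^ U ∧
      ∀ A : ℕ, 3 ≤ A → A ≤ X → Odd A → A ∉ Bad →
        ∃ K : ℝ, 0 < K ∧ Tendsto (fun N : ℕ => C A N) atTop (nhds K) ∧ 1 / (8 * Real.log X) ≤ K ∧
          ∀ n : ℕ, (X : ℝ) ^ θ ≤ n → (n : ℝ) ≤ (X : ℝ) ^ (1 - ε) →
            |(P A n : ℝ) - K * L A n| ≤ K * (n / (Real.log X) ^ U) :=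
  Pool.Agent.Helper64.AY.Ext.main (Pool.Agent.Helper64.AY.Fin.main (Pool.Agent.Helper64.AY.Net.main
    (Pool.Agent.Helper64.AY.Sec.main (Pool.Agent.Helper64.AY.Exp.main Pool.Agent.Helper64.AY.Wey.main
      Pool.Agent.Helper64.AY.Gal.main)))) θ ε hθ hε U

end Pool.Agent.Results.MP_8be758_nt.ShortRanges
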