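import Pool.Agent.Helper64.CF.Base
import Pool.Graph.R_pool_sql_team_seeded_63374d34.N792.T9

set_option autoImplicit false
set_option maxHeartbeats 4000000

/-!
# At least `3/4 - η` of the predicted number of primes `x² + x + A`, for almost all `A` and `n` up to `A^(10/7-ε)`

For every `C` with `N^(7/10 + ε) ≤ C ≤ N` almost all odd `A ≤ C` have at least `3/4 - η` times the number of
primes `x² + x + A`, `x ≤ N`, which Conjecture F predicts, with its constant `C(Δ)`, and the same holds in all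
intervals `u < x ≤ v ≤ N`. So the number of the arguments may be as large as `A^(10/7-ε)`; the numbers `x² + x + A`,
`A ≤ C`, form a thin set of integers (`C` is much smaller than the distances `2 x` of the values of one polynomial), and the methods
for averages over `A` by the circle method need `C ≥ N^(1 + ε)`. The asymptotic formula is known to the starting
library for `C ≥ N^(5/6 + ε)` (used in `MP_8be758_nt.JointLimitLaw`); the lower bound for `C ≥ N^(7/10 + ε)` is stated there for the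
polynomials `n² + a` (`MP_391708_nt.ThinFamilyLowerBound`) and, for negative constant terms, `a n² + b n - k`.

The proof is the theorem `Pool.Agent.N792.t9` of the starting library (helper792) on the polynomials
`a m² + b m + c`, `1 ≤ c ≤ C`, with `a = b = 1`, and the comparison of its main term with `C(Δ) L_A`.
-/

namespace Pool.Agent.Results.MP_8be758_nt.ThinLowerBound

open Finset Filter Topology

/-- `P_A(n)`: the number of the `x ∈ {0, 1, …, n}` for which `x ^ 2 + x + A` is prime. -/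
def P (A n : ℕ) : ℕ := ((range (n + 1)).filter (fun x : ℕ => (x ^ 2 + x + A).Prime)).card

/-- `L_A(n) = 2 ∫_0^n dx / log (x ^ 2 + x + A)`. -/
noncomputable def L (A n : ℕ) : ℝ := 2 * ∫ x in (0 : ℝ)..n, 1 / Real.log (x ^ 2 + x + A)

/-- The product of the factors `1 - (Δ/p) / (p - 1)`, `Δ = 1 - 4 A`, over the odd primes `p ≤ z`. -/
noncomputable def C (A z : ℕ) : ℝ :=
  ∏ p ∈ (Icc 3 z).filter Nat.Prime, (1 - (jacobiSym (1 - 4 * (A : ℤ)) p : ℝ) / ((p : ℝ) - 1))

/-- **A lower bound for `P_A` for almost all odd `A ≤ X`, `N^(7/10+ε) ≤ X ≤ N`.** For all `ε, η > 0`, all large `N` and every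
`X` with `N^(7/10 + ε) ≤ X ≤ N` all but at most `η X` of the odd integers `3 ≤ A ≤ X` have the following property:
the product `C(Δ)`, `Δ = 1 - 4 A`, converges to a number `K > 0`, and for all `u ≤ v ≤ N` the number
`P_A(v) - P_A(u)` is at least `(3/4) K (L_A(v) - L_A(u)) - η K L_A(N)`. In particular (`u = 0`, `v = N`)
`P_A(N) ≥ (3/4 - η) C(Δ) L_A(N)`. -/
theorem result (ε η : ℝ) (hε : 0 < ε) (hη : 0 < η) :
    ∃ N₀ : ℕ, ∀ N : ℕ, N₀ ≤ N → ∀ X : ℕ, (N : ℝ) ^ (7 / 10 + ε) ≤ X → X ≤ N →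
    ∃ Bad : Finset ℕ, (Bad.card : ℝ) ≤ η * X ∧ ∀ A : ℕ, 3 ≤ A → A ≤ X → Odd A → A ∉ Bad →
      ∃ K : ℝ, 0 < K ∧ Tendsto (fun z : ℕ => C A z) atTop (𝓝 K) ∧
        ∀ u v : ℕ, u ≤ v → v ≤ N →
          3 / 4 * (K * (L A v - L A u)) - η * (K * L A N) ≤ (P A v : ℝ) - P A u := by
  obtain ⟨x0, h9⟩ := Pool.Agent.N792.t9 1 one_pos 1 ε (η / 6) hε (by positivity)
  obtain ⟨N1, hN1⟩ := eventually_atTop.1 (((Real.isLittleO_log_id_atTop.comp_tendsto
    tendsto_natCast_atTop_atTop).def (show (0 : ℝ) < η / 6 by positivity)))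
  refine ⟨max x0 (max N1 3), fun N hN X hX1 hX2 => ?_⟩
  obtain ⟨Ex, hE1, hE2, hE3⟩ := h9 N ((le_max_left _ _).trans hN) X hX1 hX2
  refine ⟨Ex, hE2.trans (mul_le_mul_of_nonneg_right (by linarith) (Nat.cast_nonneg _)),
    fun A hA3 hAX hAodd hAE => ?_⟩
  obtain ⟨S, hS0, hSt, hb⟩ := hE3 A (mem_Icc.2 ⟨by omega, hAX⟩) hAE (Pool.Agent.Helper64.CF.adm A hAodd)
  refine ⟨S, hS0, ?_, fun u v huv hvN => ?_⟩
  · refine hSt.congr fun z => ?_
    exact Pool.Agent.Helper64.CF.partialC_one' A z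
  have hNN : N1 ≤ N := ((le_max_left _ _).trans (le_max_right _ _)).trans hN
  have hN3 : 3 ≤ N := ((le_max_right _ _).trans (le_max_right _ _)).trans hN
  have k1 := hb u v huv hvN
  rw [Pool.Agent.Helper64.CF.eps_one, Pool.Agent.Helper64.CF.gcdProd_one, mul_one] at k1
  have hP : (((Ioc u v).filter (fun m : ℕ => (Pool.Agent.N792.fv 1 1 A m).toNat.Prime)).card : ℝ) =
      (P A v : ℝ) - P A u := by
    have e := Pool.Agent.Helper64.CF.P_sub A u v huv
    have e2 : (Pool.Agent.Helper64.CF.P A v : ℝ) - Pool.Agent.Helper64.CF.P A u = (P A v : ℝ) - P A u := rfl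
    rw [← e2, e]
    congr 2
    apply filter_congr
    intro m _
    rw [Pool.Agent.Helper64.CF.fv_one]
  rw [hP] at k1
  refine le_trans ?_ k1
  have hs := Pool.Agent.Helper64.CF.sum_int A hA3 u v huv
  have hL : Pool.Agent.Helper64.CF.L A v - Pool.Agent.Helper64.CF.L A u = L A v - L A u := rfl
  rw [hL] at hs
  have hs1 := (abs_le.1 hs).1
  have hlow := Pool.Agent.Helper64.CF.L_lower A hA3 N (hAX.trans hX2) hN3
  have hLN : Pool.Agent.Helper64.CF.L A N = L A N := rfl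
  rw [hLN] at hlow
  obtain ⟨Sg, hSg⟩ : ∃ Sg : ℝ, Sg = ∑ m ∈ Ioc u v, 1 / Real.log ((m : ℝ) ^ 2 + m + A) := ⟨_, rfl⟩
  rw [← hSg] at hs1
  have e3 : ∑ m ∈ Ioc u v, 1 / Real.log (((1 : ℤ) : ℝ) * (m : ℝ) ^ 2 + ((1 : ℤ) : ℝ) * m + ((A : ℕ) : ℝ)) = Sg := by
    rw [hSg]
    apply sum_congr rfl
    intro m _
    push_cast
    rw [one_mul, one_mul]
  have hN3R : (3 : ℝ) ≤ N := by exact_mod_cast hN3
  have hlog : 0 < Real.log N := Real.log_pos (by linarith)
  have h6 := hN1 N hNN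
  simp only [Function.comp, id, Real.norm_eq_abs] at h6
  rw [abs_of_pos hlog, abs_of_nonneg (by linarith : (0 : ℝ) ≤ (N : ℝ))] at h6
  -- `1 ≤ (η / 6) N / log N`
  obtain ⟨Q, hQ⟩ : ∃ Q : ℝ, Q = (N : ℝ) / Real.log N := ⟨_, rfl⟩
  have h7 : 1 ≤ η / 6 * Q := by
    rw [hQ, mul_div_assoc', le_div_iff₀ hlog]
    linarith
  have h8 : 2 / 3 * Q ≤ L A N := by
    have : 2 / 3 * Q = 2 * N / (3 * Real.log N) := by rw [hQ]; field_simp
    linarith
  have e4 : 2 * S * (N : ℝ) / Real.log N = 2 * (S * Q) := by rw [hQ]; ring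
  have e5 : 2 * S * ∑ m ∈ Ioc u v, 1 / Real.log (((1 : ℤ) : ℝ) * (m : ℝ) ^ 2 + ((1 : ℤ) : ℝ) * m + ((A : ℕ) : ℝ)) =
      S * (2 * Sg) := by rw [e3]; ring
  have k2 : 3 / 4 * (S * (L A v - L A u)) - η * (S * L A N) ≤
      3 / 4 * (S * (2 * Sg)) - η / 6 * (2 * (S * Q)) := by
    have m1 : S * (L A v - L A u) ≤ S * (2 * Sg + 2) := mul_le_mul_of_nonneg_left (by linarith) hS0.le
    have m2 : S * 1 ≤ S * (η / 6 * Q) := mul_le_mul_of_nonneg_left h7 hS0.le
    have m3 : S * (η * (2 / 3 * Q)) ≤ S * (η * L A N) := by gcongr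
    nlinarith
  refine k2.trans (le_of_eq ?_)
  rw [← e4, ← e5]

end Pool.Agent.Results.MP_8be758_nt.ThinLowerBound
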